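import Pool.Agent.ARE.Final
import Pool.Agent.ARE.GB3
import Pool.Agent.ARE.StmtConv

/-!
MP_ae53e1_gt: the length of the `GL(n, ℝ)`-representation `Area_k(ℝ^n)` of `k`-homogeneous area
measures is `2` for `n = 1`, `3` for `n ≥ 2` and `k = 0` or `k = n - 1`, and `4` for
`1 ≤ k ≤ n - 2`. All definitions used in the statement are in `Pool/Agent/ARE/Stmt.lean`.
-/

set_option autoImplicit false

namespace Pool.Agent.Results.MP_ae53e1_gt.LengthOfAreaMeasures

open Pool.Agent.ARE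

theorem divV0 (m : ℕ) : DivV0 m := fun _ _ _ hΨ hω h J c x =>
  div_of_V0 (by omega) hΨ (isSSec_isSec hω) h J (sec_symbol J le_rfl hω).1 c x

theorem classPos (D k : ℕ) (hk : 1 ≤ k) (hkD : k ≤ D) : ClassPos (D + 1) k := by
  intro ε hε X hX hX'
  obtain ⟨m, rfl⟩ : ∃ m, k = m + 1 := ⟨k - 1, by omega⟩
  rcases Nat.lt_or_ge (m + 1) D with h | h
  · exact class_lt (by omega) hε hX hX'
  · obtain rfl : D = m + 1 := by omega
    rcases class_B le_rfl hε hX hX' with h1 | h1
    · rcases class_sub_top (divV0 m) hε X h1 with h2 | h2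
      · exact Or.inl h2
      · exact Or.inr (Or.inl h2)
    · exact Or.inr (Or.inr h1)

/-- for all `n ≥ 1` and `0 ≤ k ≤ n - 1`, the length of `Area_k(ℝ^n)` is `2` if `n = 1`, `3` if
`n ≥ 2` and `k` is `0` or `n - 1`, and `4` if `1 ≤ k ≤ n - 2` -/
theorem result (n k : ℕ) (hn : 1 ≤ n) (hk : k ≤ n - 1) :
    St.IsLength (EuclideanSpace ℝ (Fin n)) k
      (if n = 1 then 2 else if k = 0 ∨ k = n - 1 then 3 else 4) :=
  st_isLength (length_all divV0 classPos n k hn hk)

end Pool.Agent.Results.MP_ae53e1_gt.LengthOfAreaMeasures
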